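import Mathlib

/-!
# The soldiers automaton with noise

The soldiers (Gacs-Kurdyumov-Levin) automaton on `{-1,1}^ℤ` and its `ε`-`δ` noise.
The state `1` is `true`, the state `-1` is `false`.
-/

set_option autoImplicit false
open MeasureTheory Filter Topology

namespace Pool.Agent.Y992.Soldiers

/-- Configurations in `{-1,1}^ℤ`: `true` is the state `1`, `false` is the state `-1`. -/
abbrev Config : Type := ℤ → Bool

/-- The soldiers automaton: a `1` looks at the sites `i+1`, `i+3` and becomes `-1` if both
are `-1`; a `-1` looks at the sites `i-1`, `i-3` and becomes `1` if both are `1`; otherwise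
the state is kept. -/
def soldiers (x : Config) : Config := fun i =>
  if x i = true ∧ x (i + 1) = false ∧ x (i + 3) = false then false
  else if x i = false ∧ x (i - 1) = true ∧ x (i - 3) = true then true
  else x i

/-- The effect of the noise on the configuration `y`, driven by a field `u` of numbers in `[0,1]`:
a state `-1` becomes `1` exactly when `u i < ε`, a state `1` becomes `-1` exactly when
`u i < δ`. -/
noncomputable def addNoise (ε δ : ℝ) (y : Config) (u : ℤ → unitInterval) : Config := fun i =>
  if y i = false then decide ((u i : ℝ) < ε) else !decide ((u i : ℝ) < δ)

/-- The law of a field of independent uniform variables on `[0,1]`. -/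
noncomputable def uniformField : Measure (ℤ → unitInterval) :=
  Measure.infinitePi (fun _ : ℤ => (volume : Measure unitInterval))

instance : IsProbabilityMeasure uniformField := by
  unfold uniformField; infer_instance

lemma measurable_soldiers : Measurable soldiers := by
  apply measurable_pi_lambda
  intro i
  unfold soldiers
  have h : ∀ j : ℤ, Measurable (fun x : Config => x j) := fun j => measurable_pi_apply j
  have hs : ∀ (j : ℤ) (b : Bool), MeasurableSet {x : Config | x j = b} := fun j b =>
    (h j) (measurableSet_singleton b)
  refine Measurable.ite ((hs i true).inter ((hs (i+1) false).inter (hs (i+3) false)))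
    measurable_const ?_
  refine Measurable.ite ((hs i false).inter ((hs (i-1) true).inter (hs (i-3) true)))
    measurable_const (h i)

lemma measurable_addNoise (ε δ : ℝ) :
    Measurable (fun p : Config × (ℤ → unitInterval) => addNoise ε δ (soldiers p.1) p.2) := by
  apply measurable_pi_lambda
  intro i
  unfold addNoise
  have h1 : Measurable (fun p : Config × (ℤ → unitInterval) => soldiers p.1 i) :=
    (measurable_pi_apply i).comp (measurable_soldiers.comp measurable_fst)
  have h2 : Measurable (fun p : Config × (ℤ → unitInterval) => ((p.2 i : unitInterval) : ℝ)) :=
    measurable_subtype_coe.comp ((measurable_pi_apply i).comp measurable_snd)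
  have h3 : ∀ c : ℝ, Measurable
      (fun p : Config × (ℤ → unitInterval) => decide (((p.2 i : unitInterval) : ℝ) < c)) := by
    intro c
    have hset : MeasurableSet
        {p : Config × (ℤ → unitInterval) | ((p.2 i : unitInterval) : ℝ) < c} :=
      measurableSet_lt h2 measurable_const
    have : (fun p : Config × (ℤ → unitInterval) =>
        decide (((p.2 i : unitInterval) : ℝ) < c)) =
        fun p => if p ∈ {p : Config × (ℤ → unitInterval) | ((p.2 i : unitInterval) : ℝ) < c}
          then true else false := by
      funext p
      by_cases hp : ((p.2 i : unitInterval) : ℝ) < c
      · simp [hp]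
      · simp [hp]
    rw [this]
    exact Measurable.ite hset measurable_const measurable_const
  refine Measurable.ite (h1 (measurableSet_singleton false)) (h3 ε) ?_
  exact (measurable_from_top (f := fun b : Bool => !b)).comp (h3 δ)

/-- One step of the noisy automaton, as an operator on laws: apply the soldiers map, then the
`ε`-`δ` noise, independently at every site. -/
noncomputable def step (ε δ : ℝ) (μ : ProbabilityMeasure Config) : ProbabilityMeasure Config :=
  ⟨((μ : Measure Config).prod uniformField).map
      (fun p => addNoise ε δ (soldiers p.1) p.2),
    Measure.isProbabilityMeasure_map (measurable_addNoise ε δ).aemeasurable⟩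

/-- An operator on laws is ergodic if its iterates converge weakly, from every initial law, to one
and the same law. -/
def Ergodic (P : ProbabilityMeasure Config → ProbabilityMeasure Config) : Prop :=
  ∃ ν : ProbabilityMeasure Config, ∀ μ : ProbabilityMeasure Config,
    Tendsto (fun t : ℕ => P^[t] μ) atTop (𝓝 ν)

end Pool.Agent.Y992.Soldiers
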