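import Mathlib
import Pool.Agent.Y992.Soldiers.Defs

/-!
# The deterministic part: the potential of the soldiers automaton
-/

set_option autoImplicit false

namespace Pool.Agent.Y992.Soldiers

/-- `Good x F`: up to `F` no two `-1`s are at distance `1` or `3`, even if a `-1` is
added at `F+1`. -/
def Good (x : Config) (F : ℤ) : Prop :=
  (∀ i : ℤ, i ≤ F → x i = false → x (i - 1) = true ∧ x (i - 3) = true) ∧
    x F = true ∧ x (F - 2) = true

/-- An admissible pair. -/
def Adm (x : Config) (r F : ℤ) : Prop :=
  Good x F ∧ r ≤ F ∧ x r = true ∧ x (r - 1) = true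

lemma soldiers_eq_true_iff (x : Config) (i : ℤ) :
    soldiers x i = true ↔
      (x i = true ∧ (x (i + 1) = true ∨ x (i + 3) = true)) ∨
        (x i = false ∧ x (i - 1) = true ∧ x (i - 3) = true) := by
  unfold soldiers
  cases h0 : x i <;> cases h1 : x (i + 1) <;> cases h3 : x (i + 3) <;>
    cases g1 : x (i - 1) <;> cases g3 : x (i - 3) <;> simp

lemma good_mono {x y : Config} (h : ∀ i, x i = true → y i = true) {F : ℤ} (hx : Good x F) :
    Good y F := by
  obtain ⟨h1, h2, h3⟩ := hx
  refine ⟨fun i hi hy => ?_, h _ h2, h _ h3⟩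
  have hxi : x i = false := by
    by_contra hc
    have : x i = true := by simpa using hc
    rw [h i this] at hy
    exact absurd hy (by simp)
  exact ⟨h _ (h1 i hi hxi).1, h _ (h1 i hi hxi).2⟩

lemma adm_mono {x y : Config} (h : ∀ i, x i = true → y i = true) {r F : ℤ} (hx : Adm x r F) :
    Adm y r F :=
  ⟨good_mono h hx.1, hx.2.1, h _ hx.2.2.1, h _ hx.2.2.2⟩

/-- inside the good region, a `-1` of the image comes from a `1` with two `-1`s to the right. -/
lemma image_false {x : Config} {F : ℤ} (hx : Good x F) {m : ℤ} (hm : m ≤ F)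
    (h : soldiers x m = false) : x m = true ∧ x (m + 1) = false ∧ x (m + 3) = false := by
  by_cases hxm : x m = true
  · refine ⟨hxm, ?_, ?_⟩
    · by_contra hc
      have : x (m + 1) = true := by simpa using hc
      have h2 : soldiers x m = true := (soldiers_eq_true_iff x m).2 (Or.inl ⟨hxm, Or.inl this⟩)
      rw [h2] at h; exact absurd h (by simp)
    · by_contra hc
      have : x (m + 3) = true := by simpa using hc
      have h2 : soldiers x m = true := (soldiers_eq_true_iff x m).2 (Or.inl ⟨hxm, Or.inr this⟩)
      rw [h2] at h; exact absurd h (by simp)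
  · have hxf : x m = false := by simpa using hxm
    have h3 := hx.1 m hm hxf
    have h2 : soldiers x m = true :=
      (soldiers_eq_true_iff x m).2 (Or.inr ⟨hxf, h3.1, h3.2⟩)
    rw [h2] at h; exact absurd h (by simp)

/-- inside the good region, no two `-1`s of the image are at distance `1` or `3`. -/
lemma image_inner {x : Config} {F : ℤ} (hx : Good x F) (i : ℤ) (hi : i ≤ F)
    (h : soldiers x i = false) : soldiers x (i - 1) = true ∧ soldiers x (i - 3) = true := by
  have h0 := image_false hx hi h
  constructor
  · by_contra hc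
    have hf : soldiers x (i - 1) = false := by simpa using hc
    have h1 := image_false hx (by omega) hf
    have : x (i - 1 + 1) = false := h1.2.1
    rw [show i - 1 + 1 = i by ring] at this
    rw [h0.1] at this; exact absurd this (by simp)
  · by_contra hc
    have hf : soldiers x (i - 3) = false := by simpa using hc
    have h1 := image_false hx (by omega) hf
    have : x (i - 3 + 3) = false := h1.2.2
    rw [show i - 3 + 3 = i by ring] at this
    rw [h0.1] at this; exact absurd this (by simp)

/-- the two cases of the soldiers step: case A. -/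
lemma step_caseA {x : Config} {F : ℤ} (hx : Good x F) (h : x (F + 1) = true) :
    Adm (soldiers x) F F := by
  have hF : soldiers x F = true :=
    (soldiers_eq_true_iff x F).2 (Or.inl ⟨hx.2.1, Or.inl h⟩)
  have hF2 : soldiers x (F - 2) = true := by
    refine (soldiers_eq_true_iff x (F - 2)).2 (Or.inl ⟨hx.2.2, Or.inr ?_⟩)
    rw [show F - 2 + 3 = F + 1 by ring]; exact h
  have hF1 : soldiers x (F - 1) = true := by
    by_contra hc
    have hf : soldiers x (F - 1) = false := by simpa using hc
    have h1 := (image_false hx (by omega) hf).2.1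
    rw [show F - 1 + 1 = F by ring, hx.2.1] at h1
    exact absurd h1 (by simp)
  exact ⟨⟨fun i hi hf => image_inner hx i hi hf, hF, hF2⟩, le_refl F, hF, hF1⟩

/-- the two cases of the soldiers step: case B. -/
lemma step_caseB {x : Config} {F : ℤ} (hx : Good x F) (h : x (F + 1) = false) :
    Good (soldiers x) (F + 1) := by
  have hF : soldiers x (F + 1) = true := by
    refine (soldiers_eq_true_iff x (F + 1)).2 (Or.inr ⟨h, ?_, ?_⟩)
    · rw [show F + 1 - 1 = F by ring]; exact hx.2.1
    · rw [show F + 1 - 3 = F - 2 by ring]; exact hx.2.2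
  have hF1 : soldiers x (F - 1) = true := by
    by_contra hc
    have hf : soldiers x (F - 1) = false := by simpa using hc
    have h1 := (image_false hx (by omega) hf).2.1
    rw [show F - 1 + 1 = F by ring, hx.2.1] at h1
    exact absurd h1 (by simp)
  refine ⟨fun i hi hf => ?_, hF, by rw [show F + 1 - 2 = F - 1 by ring]; exact hF1⟩
  rcases lt_or_eq_of_le hi with hlt | heq
  · exact image_inner hx i (by omega) hf
  · subst heq
    rw [hF] at hf; exact absurd hf (by simp)

/-- the good region never shrinks. -/
lemma good_soldiers {x : Config} {F : ℤ} (hx : Good x F) :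
    Good (soldiers x) F ∨ Good (soldiers x) (F + 1) := by
  by_cases h : x (F + 1) = true
  · exact Or.inl (step_caseA hx h).1
  · exact Or.inr (step_caseB hx (by simpa using h))

/-- the sum `r + F` does not decrease under the soldiers map. -/
lemma adm_soldiers {x : Config} {r F : ℤ} (hx : Adm x r F) :
    Adm (soldiers x) F F ∨ Adm (soldiers x) (r - 1) (F + 1) := by
  by_cases h : x (F + 1) = true
  · exact Or.inl (step_caseA hx.1 h)
  · right
    refine ⟨step_caseB hx.1 (by simpa using h), by have := hx.2.1; omega, ?_, ?_⟩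
    · refine (soldiers_eq_true_iff x (r - 1)).2 (Or.inl ⟨hx.2.2.2, Or.inl ?_⟩)
      rw [show r - 1 + 1 = r by ring]; exact hx.2.2.1
    · by_contra hc
      have hf : soldiers x (r - 1 - 1) = false := by simpa using hc
      have h1 := (image_false hx.1 (by have := hx.2.1; omega) hf).2.1
      rw [show r - 1 - 1 + 1 = r - 1 by ring, hx.2.2.2] at h1
      exact absurd h1 (by simp)

/-- a suitable flip strictly increases the sum. -/
lemma adm_flip {x y : Config} (h : ∀ i, x i = true → y i = true) {r F : ℤ} (hx : Adm x r F)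
    (hy : y (if r < F then F - 1 else F + 1) = true) :
    ∃ r' F' : ℤ, Adm y r' F' ∧ r + F + 1 ≤ r' + F' := by
  have hyr : Adm y r F := adm_mono h hx
  by_cases hr : r < F
  · rw [if_pos hr] at hy
    exact ⟨F, F, ⟨hyr.1, le_refl F, hyr.1.2.1, hy⟩, by omega⟩
  · rw [if_neg hr] at hy
    have hrF : r = F := le_antisymm hx.2.1 (not_lt.1 hr)
    subst hrF
    refine ⟨r + 1, r + 1, ⟨⟨fun i hi hf => ?_, hy, ?_⟩, le_refl _, hy, ?_⟩, by omega⟩
    · rcases lt_or_eq_of_le hi with hlt | heq
      · exact hyr.1.1 i (by omega) hf
      · subst heq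
        rw [hy] at hf; exact absurd hf (by simp)
    · rw [show r + 1 - 2 = r - 1 by ring]; exact hyr.2.2.2
    · rw [show r + 1 - 1 = r by ring]; exact hyr.2.2.1

/-- the whole step: there is a site such that, whatever `1`s are added after the soldiers map, the
sum does not decrease, and it increases if a `1` is added at this site. -/
lemma adm_step {x : Config} {r F : ℤ} (hx : Adm x r F) :
    ∃ j : ℤ, ∀ y : Config, (∀ i, soldiers x i = true → y i = true) →
      (∃ r' F' : ℤ, Adm y r' F' ∧ r + F ≤ r' + F') ∧
      (y j = true → ∃ r' F' : ℤ, Adm y r' F' ∧ r + F + 1 ≤ r' + F') := by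
  rcases adm_soldiers hx with h | h
  · refine ⟨if F < F then F - 1 else F + 1, fun y hy => ⟨⟨F, F, adm_mono hy h, ?_⟩, fun hj => ?_⟩⟩
    · have := hx.2.1; omega
    · obtain ⟨r', F', h1, h2⟩ := adm_flip hy h hj
      exact ⟨r', F', h1, by have := hx.2.1; omega⟩
  · refine ⟨if r - 1 < F + 1 then F + 1 - 1 else F + 1 + 1, fun y hy =>
      ⟨⟨r - 1, F + 1, adm_mono hy h, by omega⟩, fun hj => ?_⟩⟩
    obtain ⟨r', F', h1, h2⟩ := adm_flip hy h hj
    exact ⟨r', F', h1, by omega⟩

end Pool.Agent.Y992.Soldiers
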