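import Mathlib
import Pool.Agent.Y992.Soldiers.Det

/-!
# The transition operator of the soldiers automaton with noise towards `1`
-/

set_option autoImplicit false
open MeasureTheory Filter Topology ENNReal

namespace Pool.Agent.Y992.Soldiers

/-- one step with noise towards `1`. -/
noncomputable def up (ε : ℝ) (x : Config) (u : ℤ → unitInterval) : Config :=
  addNoise ε 0 (soldiers x) u

lemma addNoise_zero_true_iff (ε : ℝ) (y : Config) (u : ℤ → unitInterval) (i : ℤ) :
    addNoise ε 0 y u i = true ↔ y i = true ∨ ((u i : ℝ) < ε) := by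
  unfold addNoise
  have h0 : ¬ ((u i : ℝ) < 0) := not_lt.2 (u i).2.1
  cases h : y i <;> simp [h0]

lemma up_true_iff (ε : ℝ) (x : Config) (u : ℤ → unitInterval) (i : ℤ) :
    up ε x u i = true ↔ soldiers x i = true ∨ ((u i : ℝ) < ε) :=
  addNoise_zero_true_iff ε _ u i

lemma up_ge (ε : ℝ) (x : Config) (u : ℤ → unitInterval) (i : ℤ) (h : soldiers x i = true) :
    up ε x u i = true := (up_true_iff ε x u i).2 (Or.inl h)

/-- the transition operator on functions. -/
noncomputable def Q (ε : ℝ) (f : Config → ℝ≥0∞) : Config → ℝ≥0∞ := fun x =>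
  ∫⁻ u, f (up ε x u) ∂uniformField

lemma Q_mono {ε : ℝ} {f g : Config → ℝ≥0∞} (h : ∀ x, f x ≤ g x) (x : Config) :
    Q ε f x ≤ Q ε g x := lintegral_mono fun u => h _

lemma Qn_mono {ε : ℝ} {f g : Config → ℝ≥0∞} (h : ∀ x, f x ≤ g x) (n : ℕ) (x : Config) :
    (Q ε)^[n] f x ≤ (Q ε)^[n] g x := by
  induction n generalizing x with
  | zero => exact h x
  | succ n ih =>
      rw [Function.iterate_succ_apply', Function.iterate_succ_apply']
      exact Q_mono ih x

lemma Qn_mono_on {ε : ℝ} {G : Set Config} (hG : ∀ x ∈ G, ∀ u : ℤ → unitInterval, up ε x u ∈ G)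
    {f g : Config → ℝ≥0∞} (h : ∀ x ∈ G, f x ≤ g x) (n : ℕ) (x : Config) (hx : x ∈ G) :
    (Q ε)^[n] f x ≤ (Q ε)^[n] g x := by
  induction n generalizing x with
  | zero => exact h x hx
  | succ n ih =>
      rw [Function.iterate_succ_apply', Function.iterate_succ_apply']
      exact lintegral_mono fun u => ih _ (hG x hx u)

lemma Q_const_mul {ε : ℝ} (c : ℝ≥0∞) (hc : c ≠ ∞) (f : Config → ℝ≥0∞) :
    Q ε (fun x => c * f x) = fun x => c * Q ε f x := by
  funext x
  exact lintegral_const_mul' c _ hc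

lemma Qn_const_mul {ε : ℝ} (c : ℝ≥0∞) (hc : c ≠ ∞) (f : Config → ℝ≥0∞) (n : ℕ) :
    (Q ε)^[n] (fun x => c * f x) = fun x => c * (Q ε)^[n] f x := by
  induction n with
  | zero => rfl
  | succ n ih =>
      rw [Function.iterate_succ_apply', ih, Q_const_mul c hc]
      funext x
      rw [Function.iterate_succ_apply']

lemma Q_const_add {ε : ℝ} (c : ℝ≥0∞) (f : Config → ℝ≥0∞) :
    Q ε (fun x => c + f x) = fun x => c + Q ε f x := by
  funext x
  unfold Q
  rw [lintegral_add_left measurable_const]
  simp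

lemma Qn_const_add {ε : ℝ} (c : ℝ≥0∞) (f : Config → ℝ≥0∞) (n : ℕ) :
    (Q ε)^[n] (fun x => c + f x) = fun x => c + (Q ε)^[n] f x := by
  induction n with
  | zero => rfl
  | succ n ih =>
      rw [Function.iterate_succ_apply', ih, Q_const_add c]
      funext x
      rw [Function.iterate_succ_apply']

lemma Qn_le_one {ε : ℝ} {f : Config → ℝ≥0∞} (h : ∀ x, f x ≤ 1) (n : ℕ) (x : Config) :
    (Q ε)^[n] f x ≤ 1 := by
  induction n generalizing x with
  | zero => exact h x
  | succ n ih =>
      rw [Function.iterate_succ_apply']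
      calc Q ε ((Q ε)^[n] f) x ≤ Q ε (fun _ => 1) x := Q_mono ih x
        _ = 1 := by unfold Q; simp

lemma measurable_up (ε : ℝ) :
    Measurable (fun p : Config × (ℤ → unitInterval) => up ε p.1 p.2) :=
  measurable_addNoise ε 0

lemma measurable_Q {ε : ℝ} {f : Config → ℝ≥0∞} (hf : Measurable f) : Measurable (Q ε f) :=
  (hf.comp (measurable_up ε)).lintegral_prod_right'

lemma measurable_Qn {ε : ℝ} {f : Config → ℝ≥0∞} (hf : Measurable f) (n : ℕ) :
    Measurable ((Q ε)^[n] f) := by
  induction n with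
  | zero => exact hf
  | succ n ih =>
      rw [Function.iterate_succ_apply']
      exact measurable_Q ih

/-- the law of one coordinate of the noise field. -/
lemma uniformField_lt {ε : ℝ} (h0 : 0 ≤ ε) (h1 : ε ≤ 1) (j : ℤ) :
    uniformField {u | (u j : ℝ) < ε} = ENNReal.ofReal ε := by
  have h := (measurePreserving_eval_infinitePi
    (fun _ : ℤ => (volume : Measure unitInterval)) j).measure_preimage
    (s := Set.Iio (⟨ε, h0, h1⟩ : unitInterval)) measurableSet_Iio.nullMeasurableSet
  rw [unitInterval.volume_Iio] at h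
  exact h

lemma measurableSet_lt_coord (ε : ℝ) (j : ℤ) :
    MeasurableSet {u : ℤ → unitInterval | (u j : ℝ) < ε} :=
  measurableSet_lt (measurable_subtype_coe.comp (measurable_pi_apply j)) measurable_const

lemma uniformField_not_lt {ε : ℝ} (h0 : 0 ≤ ε) (h1 : ε ≤ 1) (j : ℤ) :
    uniformField {u | ¬ ((u j : ℝ) < ε)} = ENNReal.ofReal (1 - ε) := by
  have h : {u : ℤ → unitInterval | ¬ ((u j : ℝ) < ε)} =
      {u : ℤ → unitInterval | (u j : ℝ) < ε}ᶜ := rfl
  rw [h, measure_compl (measurableSet_lt_coord ε j) (measure_ne_top _ _),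
    uniformField_lt h0 h1 j, measure_univ, ENNReal.ofReal_sub _ h0, ENNReal.ofReal_one]

lemma uniformField_box {ε : ℝ} (h0 : 0 ≤ ε) (h1 : ε ≤ 1) (s : Finset ℤ) :
    uniformField {u | ∀ i ∈ s, (u i : ℝ) < ε} = ENNReal.ofReal ε ^ s.card := by
  have h := Measure.infinitePi_pi (fun _ : ℤ => (volume : Measure unitInterval)) (s := s)
    (t := fun _ => Set.Iio (⟨ε, h0, h1⟩ : unitInterval)) (fun i _ => measurableSet_Iio)
  rw [Finset.prod_congr rfl (fun i _ => unitInterval.volume_Iio _), Finset.prod_const] at h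
  rw [← h]
  rfl

/-- the indicator of a `-1` at `m`. -/
noncomputable def gm (m : ℤ) : Config → ℝ≥0∞ := fun x => if x m = false then 1 else 0

lemma measurable_gm (m : ℤ) : Measurable (gm m) := by
  have h : Measurable (fun x : Config => x m) := measurable_pi_apply m
  exact Measurable.ite (h (measurableSet_singleton false)) measurable_const measurable_const

lemma gm_le_one (m : ℤ) (x : Config) : gm m x ≤ 1 := by
  unfold gm; split_ifs <;> simp

/-- `2 ^ (-n)`. -/
noncomputable def w (n : ℤ) : ℝ≥0∞ := ENNReal.ofReal ((2 : ℝ) ^ (-n))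

lemma w_anti {a b : ℤ} (h : a ≤ b) : w b ≤ w a :=
  ENNReal.ofReal_le_ofReal (zpow_le_zpow_right₀ (by norm_num) (by omega))

lemma w_succ (n : ℤ) : w (n + 1) = ENNReal.ofReal (1 / 2) * w n := by
  unfold w
  rw [← ENNReal.ofReal_mul (by norm_num)]
  congr 1
  rw [show -(n + 1) = -n + (-1) by ring, zpow_add₀ (by norm_num)]
  norm_num
  ring

lemma w_zero : w 0 = 1 := by unfold w; simp

lemma w_ne_top (n : ℤ) : w n ≠ ∞ := ENNReal.ofReal_ne_top

/-- the potential, normalised at `m`. -/
noncomputable def V (m : ℤ) : Config → ℝ≥0∞ := fun x =>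
  ⨅ (r : ℤ) (F : ℤ) (_ : Adm x r F), w (r + F - 2 * m)

lemma V_le {m : ℤ} {x : Config} {r F : ℤ} (h : Adm x r F) : V m x ≤ w (r + F - 2 * m) :=
  iInf_le_of_le r (iInf_le_of_le F (iInf_le_of_le h le_rfl))

lemma integral_half {ε : ℝ} (h0 : 0 ≤ ε) (h1 : ε ≤ 1) (j : ℤ) :
    ∫⁻ u, (if (u j : ℝ) < ε then ENNReal.ofReal (1 / 2) else 1) ∂uniformField =
      ENNReal.ofReal (1 - ε / 2) := by
  have hm := measurableSet_lt_coord ε j
  have h : (fun u : ℤ → unitInterval => (if (u j : ℝ) < ε then ENNReal.ofReal (1 / 2) else 1)) =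
      fun u => Set.indicator {u : ℤ → unitInterval | (u j : ℝ) < ε}
        (fun _ => ENNReal.ofReal (1 / 2)) u +
        Set.indicator {u : ℤ → unitInterval | (u j : ℝ) < ε}ᶜ (fun _ => 1) u := by
    funext u
    by_cases hu : (u j : ℝ) < ε
    · simp [Set.indicator, hu]
    · simp [Set.indicator, hu]
  rw [h, lintegral_add_left (measurable_const.indicator hm),
    lintegral_indicator_const hm, lintegral_indicator_const hm.compl,
    uniformField_lt h0 h1 j]
  have h2 : uniformField {u : ℤ → unitInterval | (u j : ℝ) < ε}ᶜ = ENNReal.ofReal (1 - ε) :=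
    uniformField_not_lt h0 h1 j
  rw [h2, one_mul, ← ENNReal.ofReal_mul (by norm_num), ← ENNReal.ofReal_add (by linarith)
    (by linarith)]
  congr 1
  ring

/-- the potential contracts. -/
lemma Q_V_le {ε : ℝ} (h0 : 0 ≤ ε) (h1 : ε ≤ 1) (m : ℤ) (x : Config) :
    Q ε (V m) x ≤ ENNReal.ofReal (1 - ε / 2) * V m x := by
  have hρ0 : ENNReal.ofReal (1 - ε / 2) ≠ 0 := by
    rw [Ne, ENNReal.ofReal_eq_zero, not_le]; linarith
  have hρt : ENNReal.ofReal (1 - ε / 2) ≠ ∞ := ENNReal.ofReal_ne_top
  unfold V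
  simp_rw [ENNReal.mul_iInf_of_ne hρ0 hρt]
  refine le_iInf fun r => le_iInf fun F => le_iInf fun h => ?_
  obtain ⟨j, hj⟩ := adm_step h
  calc Q ε (V m) x
      ≤ ∫⁻ u, (if (u j : ℝ) < ε then ENNReal.ofReal (1 / 2) else 1) * w (r + F - 2 * m)
          ∂uniformField := by
        refine lintegral_mono fun u => ?_
        obtain ⟨⟨r1, F1, ha1, hs1⟩, hprog⟩ := hj (up ε x u) (fun i hi => up_ge ε x u i hi)
        show V m (up ε x u) ≤ _
        by_cases hu : (u j : ℝ) < ε
        · obtain ⟨r2, F2, ha2, hs2⟩ := hprog ((up_true_iff ε x u j).2 (Or.inr hu))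
          rw [if_pos hu, ← w_succ]
          exact (V_le ha2).trans (w_anti (by omega))
        · rw [if_neg hu, one_mul]
          exact (V_le ha1).trans (w_anti (by omega))
    _ = ENNReal.ofReal (1 - ε / 2) * w (r + F - 2 * m) := by
        rw [lintegral_mul_const' _ _ (w_ne_top _), integral_half h0 h1 j]

lemma Qn_V_le {ε : ℝ} (h0 : 0 ≤ ε) (h1 : ε ≤ 1) (m : ℤ) (n : ℕ) (x : Config) :
    (Q ε)^[n] (V m) x ≤ ENNReal.ofReal (1 - ε / 2) ^ n * V m x := by
  induction n generalizing x with
  | zero => simp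
  | succ n ih =>
      rw [Function.iterate_succ_apply']
      calc Q ε ((Q ε)^[n] (V m)) x
          ≤ Q ε (fun x => ENNReal.ofReal (1 - ε / 2) ^ n * V m x) x := Q_mono ih x
        _ = ENNReal.ofReal (1 - ε / 2) ^ n * Q ε (V m) x := by
            rw [Q_const_mul _ (ENNReal.pow_ne_top ENNReal.ofReal_ne_top)]
        _ ≤ ENNReal.ofReal (1 - ε / 2) ^ n * (ENNReal.ofReal (1 - ε / 2) * V m x) := by
            gcongr
            exact Q_V_le h0 h1 m x
        _ = ENNReal.ofReal (1 - ε / 2) ^ (n + 1) * V m x := by rw [pow_succ]; ring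

/-- the set of configurations whose good region reaches `a`. -/
def GG (a : ℤ) : Set Config := {x | ∃ F : ℤ, a ≤ F ∧ Good x F}

lemma GG_step {ε : ℝ} {a : ℤ} (x : Config) (hx : x ∈ GG a) (u : ℤ → unitInterval) :
    up ε x u ∈ GG a := by
  obtain ⟨F, hF, h⟩ := hx
  rcases good_soldiers h with h' | h'
  · exact ⟨F, hF, good_mono (fun i hi => up_ge ε x u i hi) h'⟩
  · exact ⟨F + 1, by omega, good_mono (fun i hi => up_ge ε x u i hi) h'⟩

lemma Q_gm_le {ε : ℝ} (h0 : 0 ≤ ε) (h1 : ε ≤ 1) {m : ℤ} (x : Config) (hx : x ∈ GG m) :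
    Q ε (gm m) x ≤ ENNReal.ofReal (1 - ε) * gm (m + 1) x := by
  obtain ⟨F, hF, h⟩ := hx
  by_cases hs : soldiers x m = true
  · have : Q ε (gm m) x = 0 := by
      unfold Q
      rw [lintegral_eq_zero_of_ae_eq_zero]
      refine Filter.Eventually.of_forall fun u => ?_
      have := up_ge ε x u m hs
      simp [gm, this]
    rw [this]; exact zero_le
  · have hs' : soldiers x m = false := by simpa using hs
    have h2 := (image_false h hF hs').2.1
    have h3 : gm (m + 1) x = 1 := by simp [gm, h2]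
    rw [h3, mul_one, ← uniformField_not_lt h0 h1 m]
    calc Q ε (gm m) x
        ≤ ∫⁻ u, Set.indicator {u : ℤ → unitInterval | ¬ ((u m : ℝ) < ε)} (fun _ => 1) u
            ∂uniformField := by
          refine lintegral_mono fun u => ?_
          by_cases hu : (u m : ℝ) < ε
          · have := (up_true_iff ε x u m).2 (Or.inr hu)
            simp [gm, this]
          · have hmem : u ∈ {u : ℤ → unitInterval | ¬ ((u m : ℝ) < ε)} := hu
            rw [Set.indicator_of_mem hmem]
            exact gm_le_one m (up ε x u)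
      _ = uniformField {u : ℤ → unitInterval | ¬ ((u m : ℝ) < ε)} := by
          have hms : MeasurableSet {u : ℤ → unitInterval | ¬ ((u m : ℝ) < ε)} :=
            (measurableSet_lt_coord ε m).compl
          rw [lintegral_indicator_const hms, one_mul]

/-- the diagonal estimate: inside the good region a `-1` needs a noise-free diagonal. -/
lemma diag {ε : ℝ} (h0 : 0 ≤ ε) (h1 : ε ≤ 1) (s : ℕ) (m : ℤ) (x : Config) (hx : x ∈ GG (m + s)) :
    (Q ε)^[s] (gm m) x ≤ ENNReal.ofReal (1 - ε) ^ s := by
  induction s generalizing m with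
  | zero => simpa using gm_le_one m x
  | succ s ih =>
      rw [Function.iterate_succ_apply]
      have hsub : GG (m + (s + 1 : ℕ)) ⊆ GG m := fun y hy => by
        obtain ⟨F, hF, h⟩ := hy
        exact ⟨F, by push_cast at hF; omega, h⟩
      calc (Q ε)^[s] (Q ε (gm m)) x
          ≤ (Q ε)^[s] (fun x => ENNReal.ofReal (1 - ε) * gm (m + 1) x) x :=
            Qn_mono_on (G := GG (m + (s + 1 : ℕ))) (fun x hx u => GG_step x hx u)
              (fun y hy => Q_gm_le h0 h1 y (hsub hy)) s x hx
        _ = ENNReal.ofReal (1 - ε) * (Q ε)^[s] (gm (m + 1)) x := by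
            rw [Qn_const_mul _ ENNReal.ofReal_ne_top]
        _ ≤ ENNReal.ofReal (1 - ε) * ENNReal.ofReal (1 - ε) ^ s := by
            gcongr
            apply ih
            rw [show m + 1 + (s : ℤ) = m + (s + 1 : ℕ) by push_cast; ring]
            exact hx
        _ = ENNReal.ofReal (1 - ε) ^ (s + 1) := by rw [pow_succ]; ring

lemma not_GG_V {m : ℤ} {s : ℕ} {x : Config} (hx : x ∉ GG (m + s)) : 1 ≤ 4 ^ s * V m x := by
  have hw : (4 : ℝ≥0∞) ^ s * w (2 * (s : ℤ)) = 1 := by
    unfold w
    have : (4 : ℝ≥0∞) ^ s = ENNReal.ofReal ((4 : ℝ) ^ s) := by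
      rw [ENNReal.ofReal_pow (by norm_num)]
      norm_num
    rw [this, ← ENNReal.ofReal_mul (by positivity)]
    have h2 : (2 : ℝ) ^ (-(2 * (s : ℤ))) = ((4 : ℝ) ^ s)⁻¹ := by
      rw [zpow_neg, zpow_mul]
      norm_num
    rw [h2, mul_inv_cancel₀ (by positivity), ENNReal.ofReal_one]
  have hV : w (2 * (s : ℤ)) ≤ V m x := by
    refine le_iInf fun r => le_iInf fun F => le_iInf fun h => w_anti ?_
    have hF : F < m + s := by
      by_contra hc
      exact hx ⟨F, not_lt.1 hc, h.1⟩
    have := h.2.1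
    omega
  calc (1 : ℝ≥0∞) = (4 : ℝ≥0∞) ^ s * w (2 * (s : ℤ)) := hw.symm
    _ ≤ 4 ^ s * V m x := by gcongr

/-- the half-line estimate. -/
lemma halfline {ε : ℝ} (h0 : 0 ≤ ε) (h1 : ε ≤ 1) (m : ℤ) (x : Config)
    (hx : ∀ i : ℤ, i ≤ m → x i = true) (m' : ℤ) (hm : m' ≤ m) (s t : ℕ) :
    (Q ε)^[t + s] (gm m') x ≤
      ENNReal.ofReal (1 - ε) ^ s + 4 ^ s * ENNReal.ofReal (1 - ε / 2) ^ t := by
  have hadm : Adm x m m := by
    refine ⟨⟨fun i hi hf => ?_, hx m le_rfl, hx _ (by omega)⟩, le_rfl, hx m le_rfl,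
      hx _ (by omega)⟩
    rw [hx i hi] at hf; exact absurd hf (by simp)
  have hV1 : V m x ≤ 1 := by
    have := V_le (m := m) hadm
    rwa [show m + m - 2 * m = 0 by ring, w_zero] at this
  rw [Function.iterate_add_apply]
  calc (Q ε)^[t] ((Q ε)^[s] (gm m')) x
      ≤ (Q ε)^[t] (fun x => ENNReal.ofReal (1 - ε) ^ s + 4 ^ s * V m x) x := by
        refine Qn_mono (fun y => ?_) t x
        by_cases hy : y ∈ GG (m + s)
        · have hy' : y ∈ GG (m' + s) := by
            obtain ⟨F, hF, h⟩ := hy
            exact ⟨F, by omega, h⟩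
          exact (diag h0 h1 s m' y hy').trans le_self_add
        · exact ((Qn_le_one (gm_le_one m') s y).trans (not_GG_V hy)).trans le_add_self
    _ = ENNReal.ofReal (1 - ε) ^ s + 4 ^ s * (Q ε)^[t] (V m) x := by
        rw [Qn_const_add, Qn_const_mul _ (ENNReal.pow_ne_top (by norm_num))]
    _ ≤ ENNReal.ofReal (1 - ε) ^ s + 4 ^ s * (ENNReal.ofReal (1 - ε / 2) ^ t * V m x) := by
        gcongr
        exact Qn_V_le h0 h1 m t x
    _ ≤ ENNReal.ofReal (1 - ε) ^ s + 4 ^ s * (ENNReal.ofReal (1 - ε / 2) ^ t * 1) := by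
        gcongr
    _ = _ := by rw [mul_one]

/-- the light cone. -/
lemma lightcone {ε : ℝ} (s : ℕ) (a : ℤ) (x : Config) (hx : ∀ i : ℤ, i ≤ a → x i = true)
    (m : ℤ) (hm : m + s ≤ a) : (Q ε)^[s] (gm m) x = 0 := by
  induction s generalizing a x with
  | zero =>
      have := hx m (by simpa using hm)
      simp [gm, this]
  | succ s ih =>
      rw [Function.iterate_succ_apply']
      unfold Q
      rw [lintegral_eq_zero_of_ae_eq_zero]
      refine Filter.Eventually.of_forall fun u => ?_
      refine ih (a - 1) _ (fun i hi => ?_) (by push_cast at hm; omega)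
      refine up_ge ε x u i ((soldiers_eq_true_iff x i).2 (Or.inl ⟨hx i (by omega), Or.inl ?_⟩))
      exact hx _ (by omega)

/-- the indicator-like function of a `-1` near the left end `a`. -/
noncomputable def kk (a : ℤ) : Config → ℝ≥0∞ := fun x => gm a x + gm (a + 1) x + gm (a + 2) x

lemma measurable_kk (a : ℤ) : Measurable (kk a) :=
  ((measurable_gm a).add (measurable_gm (a + 1))).add (measurable_gm (a + 2))

lemma Q_add {ε : ℝ} {f g : Config → ℝ≥0∞} (hf : Measurable f) :
    Q ε (fun x => f x + g x) = fun x => Q ε f x + Q ε g x := by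
  funext x
  unfold Q
  exact lintegral_add_left (hf.comp ((measurable_up ε).comp measurable_prodMk_left)) _

lemma Qn_add {ε : ℝ} {f g : Config → ℝ≥0∞} (hf : Measurable f) (n : ℕ) :
    (Q ε)^[n] (fun x => f x + g x) = fun x => (Q ε)^[n] f x + (Q ε)^[n] g x := by
  induction n with
  | zero => rfl
  | succ n ih =>
      rw [Function.iterate_succ_apply', ih, Q_add (measurable_Qn hf n)]
      funext x
      rw [Function.iterate_succ_apply', Function.iterate_succ_apply']

lemma Qn_kk {ε : ℝ} (a : ℤ) (n : ℕ) (x : Config) :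
    (Q ε)^[n] (kk a) x = (Q ε)^[n] (gm a) x + (Q ε)^[n] (gm (a + 1)) x +
      (Q ε)^[n] (gm (a + 2)) x := by
  have h1 : Measurable (fun x => gm a x + gm (a + 1) x) :=
    (measurable_gm a).add (measurable_gm (a + 1))
  have e1 := congrFun (Qn_add (ε := ε) (g := gm (a + 2)) h1 n) x
  have e2 := congrFun (Qn_add (ε := ε) (g := gm (a + 1)) (measurable_gm a) n) x
  unfold kk
  rw [e1, e2]

/-- agreement on `[a, ∞)` persists as long as the sites `a, a+1, a+2` are `1`. -/
lemma agree_soldiers {a : ℤ} {y z : Config} (h : ∀ i : ℤ, a ≤ i → y i = z i)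
    (h0 : z a = true) (h1 : z (a + 1) = true) (h2 : z (a + 2) = true) (i : ℤ) (hi : a ≤ i) :
    soldiers y i = soldiers z i := by
  have e0 := h i hi
  have e1 := h (i + 1) (by omega)
  have e3 := h (i + 3) (by omega)
  by_cases hz : z i = true
  · have hy : y i = true := by rw [e0]; exact hz
    unfold soldiers
    rw [e1, e3, hz, hy]
    simp
  · have hzf : z i = false := by simpa using hz
    have hi3 : a + 3 ≤ i := by
      by_contra hc
      have : i = a ∨ i = a + 1 ∨ i = a + 2 := by omega
      rcases this with rfl | rfl | rfl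
      · exact hz h0
      · exact hz h1
      · exact hz h2
    have g1 := h (i - 1) (by omega)
    have g3 := h (i - 3) (by omega)
    unfold soldiers
    rw [e0, e1, e3, g1, g3]

/-- the coupling estimate. -/
lemma coupling {ε : ℝ} (a m : ℤ) (ham : a ≤ m) (U : ℕ → ℝ≥0∞) (T : ℕ)
    (hU : ∀ j ≤ T, ∀ x, (Q ε)^[j] (gm m) x ≤ U j) (τ : ℕ) (hτ : τ ≤ T) (y z : Config)
    (h : ∀ i : ℤ, a ≤ i → y i = z i) :
    (Q ε)^[τ] (gm m) y ≤ (Q ε)^[τ] (gm m) z +
      ∑ s ∈ Finset.range τ, (Q ε)^[s] (kk a) z * U (τ - s) := by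
  induction τ generalizing y z with
  | zero =>
      have := h m ham
      simp [gm, this]
  | succ τ ih =>
      by_cases hk : z a = true ∧ z (a + 1) = true ∧ z (a + 2) = true
      · obtain ⟨h0, h1, h2⟩ := hk
        have hstep : ∀ u, (Q ε)^[τ] (gm m) (up ε y u) ≤
            (Q ε)^[τ] (gm m) (up ε z u) +
              ∑ s ∈ Finset.range τ, (Q ε)^[s] (kk a) (up ε z u) * U (τ - s) := by
          intro u
          refine ih (by omega) _ _ (fun i hi => ?_)
          unfold up addNoise
          rw [agree_soldiers h h0 h1 h2 i hi]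
        calc (Q ε)^[τ + 1] (gm m) y = Q ε ((Q ε)^[τ] (gm m)) y := by
              rw [Function.iterate_succ_apply']
          _ ≤ ∫⁻ u, ((Q ε)^[τ] (gm m) (up ε z u) +
              ∑ s ∈ Finset.range τ, (Q ε)^[s] (kk a) (up ε z u) * U (τ - s)) ∂uniformField :=
              lintegral_mono hstep
          _ = (Q ε)^[τ + 1] (gm m) z +
              ∑ s ∈ Finset.range τ, (Q ε)^[s + 1] (kk a) z * U (τ - s) := by
              have hmeas : ∀ (f : Config → ℝ≥0∞), Measurable f →
                  Measurable (fun u => f (up ε z u)) := fun f hf =>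
                hf.comp ((measurable_up ε).comp measurable_prodMk_left)
              rw [lintegral_add_left (hmeas _ (measurable_Qn (measurable_gm m) τ)),
                lintegral_finsetSum _ (fun s _ =>
                  (hmeas _ (measurable_Qn (measurable_kk a) s)).mul_const _)]
              congr 1
              · rw [Function.iterate_succ_apply']; rfl
              · refine Finset.sum_congr rfl fun s _ => ?_
                rw [lintegral_mul_const _ (hmeas _ (measurable_Qn (measurable_kk a) s)),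
                  Function.iterate_succ_apply']
                rfl
          _ ≤ (Q ε)^[τ + 1] (gm m) z +
              ∑ s ∈ Finset.range (τ + 1), (Q ε)^[s] (kk a) z * U (τ + 1 - s) := by
              gcongr
              rw [Finset.sum_range_succ']
              refine le_trans (le_of_eq ?_) le_self_add
              refine Finset.sum_congr rfl fun s _ => ?_
              rw [show τ + 1 - (s + 1) = τ - s by omega]
      · have hk1 : 1 ≤ kk a z := by
          unfold kk gm
          by_cases h0 : z a = true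
          · by_cases h1 : z (a + 1) = true
            · have h2 : z (a + 2) = false := by
                by_contra hc
                exact hk ⟨h0, h1, by simpa using hc⟩
              simp [h0, h1, h2]
            · have h1' : z (a + 1) = false := by simpa using h1
              rw [if_pos h1']
              exact le_trans le_add_self le_self_add
          · have h0' : z a = false := by simpa using h0
            rw [if_pos h0', add_assoc]
            exact le_self_add
        calc (Q ε)^[τ + 1] (gm m) y ≤ U (τ + 1) := hU _ hτ y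
          _ = 1 * U (τ + 1 - 0) := by simp
          _ ≤ (Q ε)^[0] (kk a) z * U (τ + 1 - 0) := by gcongr; exact hk1
          _ ≤ ∑ s ∈ Finset.range (τ + 1), (Q ε)^[s] (kk a) z * U (τ + 1 - s) :=
              Finset.single_le_sum (f := fun s => (Q ε)^[s] (kk a) z * U (τ + 1 - s))
                (fun _ _ => zero_le) (Finset.mem_range.2 (Nat.succ_pos τ))
          _ ≤ _ := le_add_self

end Pool.Agent.Y992.Soldiers
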