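import Mathlib
import Pool.Agent.Y992.Soldiers.Prob

/-!
# Exponential convergence of the one-way noisy soldiers automaton
-/

set_option autoImplicit false
open MeasureTheory Filter Topology ENNReal

namespace Pool.Agent.Y992.Soldiers

/-- exponential form of the half-line estimate. -/
lemma halfline_exp {ε : ℝ} (h0 : 0 < ε) (h1 : ε ≤ 1) :
    ∃ C θ : ℝ, 1 ≤ C ∧ 0 < θ ∧ θ < 1 ∧ ∀ (m : ℤ) (x : Config), (∀ i : ℤ, i ≤ m → x i = true) →
      ∀ m' : ℤ, m' ≤ m → ∀ t : ℕ,
        (Q ε)^[t] (gm m') x ≤ ENNReal.ofReal (C * θ ^ t) := by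
  set q : ℝ := 1 - ε / 2 with hq
  have hq0 : 1 / 2 ≤ q := by rw [hq]; linarith
  have hq1 : q < 1 := by rw [hq]; linarith
  have hqp : 0 < q := by linarith
  obtain ⟨K, hK⟩ := exists_pow_lt_of_lt_one (show (0 : ℝ) < 1 / 8 by norm_num) hq1
  set θ : ℝ := q ^ ((1 : ℝ) / (K + 1 : ℕ)) with hθ
  have hθp : 0 < θ := Real.rpow_pos_of_pos hqp _
  have hθpow : θ ^ (K + 1) = q := by
    rw [hθ, ← Real.rpow_natCast, ← Real.rpow_mul hqp.le, one_div,
      inv_mul_cancel₀ (by positivity), Real.rpow_one]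
  have hθ1 : θ < 1 := by
    by_contra hc
    have : 1 ≤ θ ^ (K + 1) := one_le_pow₀ (not_lt.1 hc)
    rw [hθpow] at this
    linarith
  have hθK : 0 < θ ^ K := by positivity
  have hθK1 : θ ^ K ≤ 1 := pow_le_one₀ hθp.le hθ1.le
  refine ⟨2 / θ ^ K, θ, ?_, hθp, hθ1, ?_⟩
  · rw [le_div_iff₀ hθK]; linarith
  intro m x hx m' hm t
  set s : ℕ := t / (K + 1) with hs
  set r : ℕ := t % (K + 1) with hr
  have hts : t = (K * s + r) + s := by
    have := Nat.div_add_mod t (K + 1)
    rw [← hs, ← hr] at this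
    nlinarith
  have hrK : r ≤ K := by
    have hlt : t % (K + 1) < K + 1 := Nat.mod_lt _ (Nat.succ_pos K)
    rw [← hr] at hlt
    exact Nat.lt_succ_iff.1 hlt
  have hmain := halfline h0.le h1 m x hx m' hm s (K * s + r)
  rw [← hts] at hmain
  refine hmain.trans ?_
  have e4 : (4 : ℝ≥0∞) ^ s = ENNReal.ofReal ((4 : ℝ) ^ s) := by
    rw [ENNReal.ofReal_pow (by norm_num)]
    norm_num
  rw [e4, ← ENNReal.ofReal_pow (by linarith), ← ENNReal.ofReal_pow hqp.le,
    ← ENNReal.ofReal_mul (by positivity), ← ENNReal.ofReal_add (by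
      apply pow_nonneg; linarith) (by positivity)]
  apply ENNReal.ofReal_le_ofReal
  have hA : (1 - ε) ^ s ≤ q ^ s := by
    apply pow_le_pow_left₀ (by linarith)
    rw [hq]; linarith
  have hB : (4 : ℝ) ^ s * q ^ (K * s + r) ≤ q ^ s := by
    calc (4 : ℝ) ^ s * q ^ (K * s + r) ≤ (4 : ℝ) ^ s * q ^ (K * s) := by
          gcongr ?_ * ?_
          exact pow_le_pow_of_le_one hqp.le hq1.le (by omega)
      _ = (4 * q ^ K) ^ s := by rw [pow_mul, mul_pow]
      _ ≤ q ^ s := by
          apply pow_le_pow_left₀ (by positivity)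
          linarith
  have hC : q ^ s * θ ^ K ≤ θ ^ t := by
    have e1 : q ^ s * θ ^ r = θ ^ t := by
      rw [← hθpow, ← pow_mul, ← pow_add]
      congr 1
      rw [hts]; ring
    calc q ^ s * θ ^ K ≤ q ^ s * θ ^ r := by
          gcongr ?_ * ?_
          exact pow_le_pow_of_le_one hθp.le hθ1.le hrK
      _ = θ ^ t := e1
  calc (1 - ε) ^ s + 4 ^ s * q ^ (K * s + r) ≤ 2 * q ^ s := by linarith
    _ = 2 / θ ^ K * (q ^ s * θ ^ K) := by field_simp
    _ ≤ 2 / θ ^ K * θ ^ t := by gcongr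

/-- the average of a two-valued function over a box event. -/
lemma integral_box {ε : ℝ} (h0 : 0 ≤ ε) (h1 : ε ≤ 1) (S : Finset ℤ) :
    ∫⁻ u, (open scoped Classical in
      if (∀ i ∈ S, (u i : ℝ) < ε) then ENNReal.ofReal (3 / 4) else 1) ∂uniformField =
      ENNReal.ofReal (1 - ε ^ S.card / 4) := by
  classical
  set A : Set (ℤ → unitInterval) := {u | ∀ i ∈ S, (u i : ℝ) < ε} with hA
  have hm : MeasurableSet A := by
    have : A = ⋂ i ∈ S, {u : ℤ → unitInterval | (u i : ℝ) < ε} := by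
      ext u; simp [hA]
    rw [this]
    exact Finset.measurableSet_biInter S (fun i _ => measurableSet_lt_coord ε i)
  have h : (fun u : ℤ → unitInterval =>
      (if (∀ i ∈ S, (u i : ℝ) < ε) then ENNReal.ofReal (3 / 4) else (1 : ℝ≥0∞))) =
      fun u => Set.indicator A (fun _ => ENNReal.ofReal (3 / 4)) u +
        Set.indicator Aᶜ (fun _ => 1) u := by
    funext u
    by_cases hu : u ∈ A
    · have hu' : ∀ i ∈ S, (u i : ℝ) < ε := hu
      rw [Set.indicator_of_mem hu, Set.indicator_of_notMem (by simpa using hu), if_pos hu',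
        add_zero]
    · have hu' : ¬ ∀ i ∈ S, (u i : ℝ) < ε := hu
      rw [Set.indicator_of_notMem hu, Set.indicator_of_mem (by simpa using hu), if_neg hu',
        zero_add]
  rw [h, lintegral_add_left (measurable_const.indicator hm),
    lintegral_indicator_const hm, lintegral_indicator_const hm.compl,
    measure_compl hm (measure_ne_top _ _), measure_univ]
  have hb : uniformField A = ENNReal.ofReal (ε ^ S.card) := by
    rw [hA, uniformField_box h0 h1 S, ENNReal.ofReal_pow h0]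
  have hpow : ε ^ S.card ≤ 1 := pow_le_one₀ h0 h1
  have hpow0 : 0 ≤ ε ^ S.card := pow_nonneg h0 _
  rw [hb, one_mul, ← ENNReal.ofReal_mul (by norm_num), ← ENNReal.ofReal_one,
    ← ENNReal.ofReal_sub _ hpow0, ← ENNReal.ofReal_add (by positivity) (by linarith)]
  congr 1
  ring

/-- **uniform exponential decay** of the probability of a `-1`. -/
theorem decay {ε : ℝ} (h0 : 0 < ε) (h1 : ε ≤ 1) :
    ∃ C θ : ℝ, 0 < C ∧ 0 < θ ∧ θ < 1 ∧ ∀ (t : ℕ) (m : ℤ) (x : Config),
      (Q ε)^[t] (gm m) x ≤ ENNReal.ofReal (C * θ ^ t) := by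
  classical
  obtain ⟨C1, θ1, hC1, hθ1p, hθ11, hhalf⟩ := halfline_exp h0 h1
  -- the cube root
  set θ2 : ℝ := θ1 ^ ((1 : ℝ) / (3 : ℕ)) with hθ2
  have hθ2p : 0 < θ2 := Real.rpow_pos_of_pos hθ1p _
  have hθ2pow : θ2 ^ 3 = θ1 := by
    rw [hθ2, ← Real.rpow_natCast, ← Real.rpow_mul hθ1p.le, one_div,
      inv_mul_cancel₀ (by norm_num), Real.rpow_one]
  have hθ21 : θ2 < 1 := by
    by_contra hc
    have : 1 ≤ θ2 ^ 3 := one_le_pow₀ (not_lt.1 hc)
    rw [hθ2pow] at this
    linarith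
  have hθ12 : θ1 ≤ θ2 := by
    rw [← hθ2pow]
    calc θ2 ^ 3 ≤ θ2 ^ 1 := pow_le_pow_of_le_one hθ2p.le hθ21.le (by norm_num)
      _ = θ2 := pow_one _
  -- choice of the length
  obtain ⟨M, hM⟩ := exists_pow_lt_of_lt_one
    (show (0 : ℝ) < (1 - θ2) / (6 * C1) by
      apply div_pos (by linarith) (by linarith)) hθ21
  set κ : ℝ := ε ^ (M + 2) with hκ
  have hκ0 : 0 < κ := pow_pos h0 _
  have hκ1 : κ ≤ 1 := pow_le_one₀ h0.le h1
  set θ3 : ℝ := max θ2 (1 - κ / 4) with hθ3
  have hθ31 : θ3 < 1 := max_lt hθ21 (by linarith)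
  have hθ32 : θ2 ≤ θ3 := le_max_left _ _
  have hθ3κ : 1 - κ / 4 ≤ θ3 := le_max_right _ _
  have hθ3p : 0 < θ3 := lt_of_lt_of_le hθ2p hθ32
  set C2 : ℝ := 4 * C1 with hC2
  have hC2p : 0 < C2 := by rw [hC2]; linarith
  refine ⟨C2, θ3, hC2p, hθ3p, hθ31, ?_⟩
  intro t
  induction t using Nat.strong_induction_on with
  | _ t ih =>
  rcases Nat.eq_zero_or_pos t with rfl | htpos
  · intro m x
    refine (gm_le_one m x).trans ?_
    rw [← ENNReal.ofReal_one]
    apply ENNReal.ofReal_le_ofReal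
    rw [pow_zero, mul_one]; linarith
  obtain ⟨n, rfl⟩ : ∃ n, t = n + 1 := ⟨t - 1, by omega⟩
  intro m x
  set a : ℤ := m - M - 1 with ha
  have ham : a ≤ m := by omega
  set S : Finset ℤ := Finset.Icc a m with hS
  have hScard : S.card = M + 2 := by
    rw [hS, Int.card_Icc, ha]; omega
  have hUn : ∀ j ≤ n, ∀ x, (Q ε)^[j] (gm m) x ≤ ENNReal.ofReal (C2 * θ3 ^ j) :=
    fun j hj x => ih j (by omega) m x
  have hbox : ∀ u : ℤ → unitInterval, (∀ i ∈ S, (u i : ℝ) < ε) →
      (Q ε)^[n] (gm m) (up ε x u) ≤ ENNReal.ofReal (3 / 4) * ENNReal.ofReal (C2 * θ3 ^ n) := by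
    intro u hu
    set y : Config := up ε x u with hy
    have hy1 : ∀ i : ℤ, a ≤ i → i ≤ m → y i = true := fun i hi1 hi2 =>
      (up_true_iff ε x u i).2 (Or.inr (hu i (Finset.mem_Icc.2 ⟨hi1, hi2⟩)))
    set z : Config := fun i => if i < a then true else y i with hz
    have hz1 : ∀ i : ℤ, i ≤ m → z i = true := by
      intro i hi
      rw [hz]
      by_cases hia : i < a
      · simp [hia]
      · simp only [if_neg hia]
        exact hy1 i (not_lt.1 hia) hi
    have hyz : ∀ i : ℤ, a ≤ i → y i = z i := by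
      intro i hi
      rw [hz]
      simp only [if_neg (not_lt.2 hi)]
    have hcoup := coupling a m ham (fun j => ENNReal.ofReal (C2 * θ3 ^ j)) n hUn n le_rfl y z hyz
    refine hcoup.trans ?_
    have hfirst : (Q ε)^[n] (gm m) z ≤ ENNReal.ofReal (C1 * θ1 ^ n) :=
      hhalf m z hz1 m le_rfl n
    have hterm : ∀ s ∈ Finset.range n,
        (Q ε)^[s] (kk a) z * ENNReal.ofReal (C2 * θ3 ^ (n - s)) ≤
          ENNReal.ofReal (3 * C1 * θ2 ^ M * C2 * θ3 ^ n * θ2 ^ s) := by
      intro s hs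
      have hsn : s < n := Finset.mem_range.1 hs
      have hkk : (Q ε)^[s] (kk a) z ≤ ENNReal.ofReal (3 * C1 * θ2 ^ M * θ2 ^ (2 * s)) := by
        rw [Qn_kk]
        by_cases hsM : s < M
        · rw [lightcone s m z hz1 a (by omega), lightcone s m z hz1 (a + 1) (by omega),
            lightcone s m z hz1 (a + 2) (by omega)]
          simp
        · have hb : ∀ b : ℤ, b ≤ m → (Q ε)^[s] (gm b) z ≤ ENNReal.ofReal (C1 * θ1 ^ s) :=
            fun b hb => hhalf m z hz1 b hb s
          calc (Q ε)^[s] (gm a) z + (Q ε)^[s] (gm (a + 1)) z + (Q ε)^[s] (gm (a + 2)) z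
              ≤ ENNReal.ofReal (C1 * θ1 ^ s) + ENNReal.ofReal (C1 * θ1 ^ s) +
                ENNReal.ofReal (C1 * θ1 ^ s) := by
                have hM0 : 0 ≤ M := Nat.zero_le _
                rcases Nat.eq_zero_or_pos M with hM00 | hMpos
                · -- M = 0 : the site a + 2 may exceed m
                  exfalso
                  rw [hM00, pow_zero] at hM
                  have : (1 - θ2) / (6 * C1) < 1 := by
                    rw [div_lt_one (by linarith)]; linarith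
                  linarith
                · exact add_le_add (add_le_add (hb a (by omega)) (hb (a + 1) (by omega)))
                    (hb (a + 2) (by omega))
            _ = ENNReal.ofReal (3 * (C1 * θ1 ^ s)) := by
                have hp : 0 ≤ C1 * θ1 ^ s := by positivity
                rw [← ENNReal.ofReal_add hp hp, ← ENNReal.ofReal_add (by positivity) hp]
                congr 1; ring
            _ ≤ ENNReal.ofReal (3 * C1 * θ2 ^ M * θ2 ^ (2 * s)) := by
                apply ENNReal.ofReal_le_ofReal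
                have e1 : θ1 ^ s = θ2 ^ s * θ2 ^ (2 * s) := by
                  rw [← hθ2pow, ← pow_mul, ← pow_add]
                  congr 1; ring
                have e2 : θ2 ^ s ≤ θ2 ^ M :=
                  pow_le_pow_of_le_one hθ2p.le hθ21.le (not_lt.1 hsM)
                rw [e1]
                calc 3 * (C1 * (θ2 ^ s * θ2 ^ (2 * s)))
                    = 3 * C1 * θ2 ^ s * θ2 ^ (2 * s) := by ring
                  _ ≤ 3 * C1 * θ2 ^ M * θ2 ^ (2 * s) := by gcongr
      calc (Q ε)^[s] (kk a) z * ENNReal.ofReal (C2 * θ3 ^ (n - s))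
          ≤ ENNReal.ofReal (3 * C1 * θ2 ^ M * θ2 ^ (2 * s)) *
            ENNReal.ofReal (C2 * θ3 ^ (n - s)) := by gcongr
        _ = ENNReal.ofReal (3 * C1 * θ2 ^ M * θ2 ^ (2 * s) * (C2 * θ3 ^ (n - s))) := by
            rw [← ENNReal.ofReal_mul (by positivity)]
        _ ≤ ENNReal.ofReal (3 * C1 * θ2 ^ M * C2 * θ3 ^ n * θ2 ^ s) := by
            apply ENNReal.ofReal_le_ofReal
            have e3 : θ3 ^ n = θ3 ^ s * θ3 ^ (n - s) := by
              rw [← pow_add]; congr 1; omega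
            have e4 : θ2 ^ s ≤ θ3 ^ s := pow_le_pow_left₀ hθ2p.le hθ32 s
            have e5 : θ2 ^ (2 * s) = θ2 ^ s * θ2 ^ s := by rw [two_mul, pow_add]
            rw [e3, e5]
            calc 3 * C1 * θ2 ^ M * (θ2 ^ s * θ2 ^ s) * (C2 * θ3 ^ (n - s))
                = (3 * C1 * θ2 ^ M * C2 * θ3 ^ (n - s) * θ2 ^ s) * θ2 ^ s := by ring
              _ ≤ (3 * C1 * θ2 ^ M * C2 * θ3 ^ (n - s) * θ2 ^ s) * θ3 ^ s := by gcongr
              _ = 3 * C1 * θ2 ^ M * C2 * (θ3 ^ s * θ3 ^ (n - s)) * θ2 ^ s := by ring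
    calc (Q ε)^[n] (gm m) z + ∑ s ∈ Finset.range n,
          (Q ε)^[s] (kk a) z * ENNReal.ofReal (C2 * θ3 ^ (n - s))
        ≤ ENNReal.ofReal (C1 * θ1 ^ n) + ∑ s ∈ Finset.range n,
          ENNReal.ofReal (3 * C1 * θ2 ^ M * C2 * θ3 ^ n * θ2 ^ s) :=
          add_le_add hfirst (Finset.sum_le_sum hterm)
      _ = ENNReal.ofReal (C1 * θ1 ^ n + ∑ s ∈ Finset.range n,
          3 * C1 * θ2 ^ M * C2 * θ3 ^ n * θ2 ^ s) := by
          rw [ENNReal.ofReal_add (by positivity)
            (Finset.sum_nonneg fun s _ => by positivity),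
            ENNReal.ofReal_sum_of_nonneg (fun s _ => by positivity)]
      _ ≤ ENNReal.ofReal (3 / 4 * (C2 * θ3 ^ n)) := by
          apply ENNReal.ofReal_le_ofReal
          have e1 : C1 * θ1 ^ n ≤ 1 / 4 * (C2 * θ3 ^ n) := by
            have : θ1 ^ n ≤ θ3 ^ n := pow_le_pow_left₀ hθ1p.le (hθ12.trans hθ32) n
            rw [hC2]
            nlinarith
          have e2 : ∑ s ∈ Finset.range n, 3 * C1 * θ2 ^ M * C2 * θ3 ^ n * θ2 ^ s ≤
              1 / 2 * (C2 * θ3 ^ n) := by
            rw [← Finset.mul_sum]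
            have hgeo : ∑ s ∈ Finset.range n, θ2 ^ s ≤ (1 - θ2)⁻¹ := by
              rw [← tsum_geometric_of_lt_one hθ2p.le hθ21]
              exact (summable_geometric_of_lt_one hθ2p.le hθ21).sum_le_tsum _
                (fun s _ => by positivity)
            have h3 : 3 * C1 * θ2 ^ M * (1 - θ2)⁻¹ ≤ 1 / 2 := by
              have h4 : θ2 ^ M ≤ (1 - θ2) / (6 * C1) := hM.le
              have h5 : 0 < 1 - θ2 := by linarith
              calc 3 * C1 * θ2 ^ M * (1 - θ2)⁻¹
                  ≤ 3 * C1 * ((1 - θ2) / (6 * C1)) * (1 - θ2)⁻¹ := by gcongr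
                _ = 1 / 2 := by field_simp; norm_num
            calc 3 * C1 * θ2 ^ M * C2 * θ3 ^ n * ∑ s ∈ Finset.range n, θ2 ^ s
                ≤ 3 * C1 * θ2 ^ M * C2 * θ3 ^ n * (1 - θ2)⁻¹ := by gcongr
              _ = (3 * C1 * θ2 ^ M * (1 - θ2)⁻¹) * (C2 * θ3 ^ n) := by ring
              _ ≤ 1 / 2 * (C2 * θ3 ^ n) := by gcongr
          linarith
      _ = ENNReal.ofReal (3 / 4) * ENNReal.ofReal (C2 * θ3 ^ n) := by
          rw [← ENNReal.ofReal_mul (by norm_num)]
  rw [Function.iterate_succ_apply']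
  calc Q ε ((Q ε)^[n] (gm m)) x
      ≤ ∫⁻ u, (if (∀ i ∈ S, (u i : ℝ) < ε) then ENNReal.ofReal (3 / 4) else 1) *
          ENNReal.ofReal (C2 * θ3 ^ n) ∂uniformField := by
        refine lintegral_mono fun u => ?_
        by_cases hu : ∀ i ∈ S, (u i : ℝ) < ε
        · rw [if_pos hu]; exact hbox u hu
        · rw [if_neg hu, one_mul]; exact hUn n le_rfl _
    _ = ENNReal.ofReal (1 - κ / 4) * ENNReal.ofReal (C2 * θ3 ^ n) := by
        rw [lintegral_mul_const' _ _ ENNReal.ofReal_ne_top]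
        have := integral_box h0.le h1 S
        rw [hScard] at this
        rw [← this]
    _ = ENNReal.ofReal ((1 - κ / 4) * (C2 * θ3 ^ n)) := by
        rw [← ENNReal.ofReal_mul (by linarith)]
    _ ≤ ENNReal.ofReal (C2 * θ3 ^ (n + 1)) := by
        apply ENNReal.ofReal_le_ofReal
        rw [pow_succ]
        have : 0 < C2 * θ3 ^ n := by positivity
        nlinarith

end Pool.Agent.Y992.Soldiers
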