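import Mathlib
import Pool.Agent.Y992.Soldiers.Main

/-!
# Ergodicity of the one-way noisy soldiers automaton
-/

set_option autoImplicit false
open MeasureTheory Filter Topology ENNReal

namespace Pool.Agent.Y992.Soldiers

/-- duality, one step. -/
lemma lintegral_step {ε : ℝ} {f : Config → ℝ≥0∞} (hf : Measurable f)
    (μ : ProbabilityMeasure Config) :
    ∫⁻ x, f x ∂((step ε 0 μ : ProbabilityMeasure Config) : Measure Config) =
      ∫⁻ x, Q ε f x ∂(μ : Measure Config) := by
  show ∫⁻ x, f x ∂(((μ : Measure Config).prod uniformField).map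
      (fun p => addNoise ε 0 (soldiers p.1) p.2)) = _
  rw [lintegral_map hf (measurable_addNoise ε 0)]
  exact lintegral_prod (fun p : Config × (ℤ → unitInterval) =>
    f (addNoise ε 0 (soldiers p.1) p.2)) (hf.comp (measurable_addNoise ε 0)).aemeasurable

/-- duality. -/
lemma lintegral_step_iter {ε : ℝ} (t : ℕ) {f : Config → ℝ≥0∞} (hf : Measurable f)
    (μ : ProbabilityMeasure Config) :
    ∫⁻ x, f x ∂(((step ε 0)^[t] μ : ProbabilityMeasure Config) : Measure Config) =
      ∫⁻ x, (Q ε)^[t] f x ∂(μ : Measure Config) := by
  induction t generalizing f with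
  | zero => rfl
  | succ t ih =>
      rw [Function.iterate_succ_apply', lintegral_step hf, ih (measurable_Q hf),
        Function.iterate_succ_apply]

/-- the probability of a `-1` at a site decays exponentially, uniformly in the initial law. -/
theorem decay_law {ε : ℝ} (h0 : 0 < ε) (h1 : ε ≤ 1) :
    ∃ C θ : ℝ, 0 < θ ∧ θ < 1 ∧ ∀ (μ : ProbabilityMeasure Config) (i : ℤ) (t : ℕ),
      (((step ε 0)^[t] μ : ProbabilityMeasure Config) : Measure Config) {x | x i = false} ≤
        ENNReal.ofReal (C * θ ^ t) := by
  obtain ⟨C, θ, -, hθ, hθ1, h⟩ := decay h0 h1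
  refine ⟨C, θ, hθ, hθ1, fun μ i t => ?_⟩
  have hm : MeasurableSet {x : Config | x i = false} := by
    have h : Measurable (fun x : Config => x i) := measurable_pi_apply i
    exact h (measurableSet_singleton false)
  have h2 : (((step ε 0)^[t] μ : ProbabilityMeasure Config) : Measure Config)
      {x | x i = false} =
      ∫⁻ x, gm i x ∂(((step ε 0)^[t] μ : ProbabilityMeasure Config) : Measure Config) := by
    have : gm i = Set.indicator {x : Config | x i = false} (fun _ => 1) := by
      funext x
      by_cases hx : x i = false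
      · rw [Set.indicator_of_mem (show x ∈ {x : Config | x i = false} from hx)]
        simp [gm, hx]
      · rw [Set.indicator_of_notMem (show x ∉ {x : Config | x i = false} from hx)]
        simp [gm, hx]
    rw [this, lintegral_indicator_const hm, one_mul]
  rw [h2, lintegral_step_iter t (measurable_gm i) μ]
  calc ∫⁻ x, (Q ε)^[t] (gm i) x ∂(μ : Measure Config)
      ≤ ∫⁻ _, ENNReal.ofReal (C * θ ^ t) ∂(μ : Measure Config) :=
        lintegral_mono fun x => h t i x
    _ = ENNReal.ofReal (C * θ ^ t) := by simp

/-- convergence of one-site laws to a constant gives weak convergence to a point mass. -/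
lemma tendsto_dirac (b : Bool) (ν : ℕ → ProbabilityMeasure Config)
    (h : ∀ i : ℤ, Tendsto (fun t => (ν t : Measure Config) {x | x i = !b}) atTop (𝓝 0)) :
    Tendsto ν atTop (𝓝 ⟨Measure.dirac (fun _ => b), inferInstance⟩) := by
  classical
  refine tendsto_of_forall_isOpen_le_liminf' fun G hG => ?_
  show Measure.dirac (fun _ => b) G ≤ _
  by_cases hb : (fun _ : ℤ => b) ∈ G
  swap
  · rw [Measure.dirac_apply' _ hG.measurableSet, Set.indicator_of_notMem hb]
    exact zero_le
  obtain ⟨I, U, hU, hsub⟩ := isOpen_pi_iff.1 hG _ hb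
  -- G contains the cylinder `x = b` on `I`
  have hcyl : ∀ x : Config, (∀ i ∈ I, x i = b) → x ∈ G := by
    intro x hx
    apply hsub
    intro i hi
    rw [hx i hi]
    exact (hU i hi).2
  have hbound : ∀ t, 1 - ∑ i ∈ I, (ν t : Measure Config) {x | x i = !b} ≤
      (ν t : Measure Config) G := by
    intro t
    have h1 : (ν t : Measure Config) Gᶜ ≤ ∑ i ∈ I, (ν t : Measure Config) {x | x i = !b} := by
      calc (ν t : Measure Config) Gᶜ ≤ (ν t : Measure Config) (⋃ i ∈ I, {x | x i = !b}) := by
            refine measure_mono fun x hx => ?_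
            by_contra hc
            apply hx
            apply hcyl
            intro i hi
            by_contra hne
            apply hc
            refine Set.mem_biUnion hi ?_
            show x i = !b
            cases b <;> simpa using hne
        _ ≤ _ := measure_biUnion_finset_le I _
    have h2 : (ν t : Measure Config) G = 1 - (ν t : Measure Config) Gᶜ := by
      have := measure_compl (μ := (ν t : Measure Config)) hG.measurableSet.compl
        (measure_ne_top _ _)
      rwa [compl_compl, measure_univ] at this
    rw [h2]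
    exact tsub_le_tsub_left h1 1
  have hlim : Tendsto (fun t => 1 - ∑ i ∈ I, (ν t : Measure Config) {x | x i = !b}) atTop
      (𝓝 1) := by
    have h1 : Tendsto (fun t => ∑ i ∈ I, (ν t : Measure Config) {x | x i = !b}) atTop
        (𝓝 (∑ i ∈ I, 0)) := tendsto_finsetSum I fun i _ => h i
    rw [Finset.sum_const_zero] at h1
    have h2 := ENNReal.Tendsto.sub (tendsto_const_nhds (x := (1 : ℝ≥0∞))) h1
      (Or.inl ENNReal.one_ne_top)
    simpa using h2
  calc Measure.dirac (fun _ => b) G ≤ 1 := prob_le_one
    _ = liminf (fun t => 1 - ∑ i ∈ I, (ν t : Measure Config) {x | x i = !b}) atTop :=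
        hlim.liminf_eq.symm
    _ ≤ liminf (fun t => (ν t : Measure Config) G) atTop :=
        liminf_le_liminf (Eventually.of_forall hbound)

lemma tendsto_bound (C θ : ℝ) (h0 : 0 < θ) (h1 : θ < 1) :
    Tendsto (fun t : ℕ => ENNReal.ofReal (C * θ ^ t)) atTop (𝓝 0) := by
  have h : Tendsto (fun t : ℕ => C * θ ^ t) atTop (𝓝 (C * 0)) :=
    (tendsto_pow_atTop_nhds_zero_of_lt_one h0.le h1).const_mul C
  rw [mul_zero] at h
  have h2 := ENNReal.tendsto_ofReal h
  rwa [ENNReal.ofReal_zero] at h2

theorem ergodic_plus {ε : ℝ} (h0 : 0 < ε) (h1 : ε ≤ 1) : Ergodic (step ε 0) := by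
  obtain ⟨C, θ, hθ, hθ1, h⟩ := decay_law h0 h1
  refine ⟨⟨Measure.dirac (fun _ => true), inferInstance⟩, fun μ => ?_⟩
  refine tendsto_dirac true _ fun i => ?_
  exact tendsto_of_tendsto_of_tendsto_of_le_of_le tendsto_const_nhds (tendsto_bound C θ hθ hθ1)
    (fun t => zero_le) (fun t => h μ i t)

/-! ### The mirror image -/

/-- reflection of the line together with the exchange of the two states. -/
def mir (x : Config) : Config := fun i => !x (-i)

lemma mir_mir (x : Config) : mir (mir x) = x := by
  funext i
  simp [mir]

lemma measurable_mir : Measurable mir := by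
  apply measurable_pi_lambda
  intro i
  exact (measurable_from_top (f := fun b : Bool => !b)).comp (measurable_pi_apply (-i))

lemma soldiers_mir (x : Config) : soldiers (mir x) = mir (soldiers x) := by
  funext i
  have e1 : -(i + 1) = -i - 1 := by ring
  have e2 : -(i + 3) = -i - 3 := by ring
  have e3 : -(i - 1) = -i + 1 := by ring
  have e4 : -(i - 3) = -i + 3 := by ring
  simp only [soldiers, mir, e1, e2, e3, e4]
  generalize x (-i) = a
  generalize x (-i + 1) = b
  generalize x (-i - 1) = c
  generalize x (-i + 3) = d
  generalize x (-i - 3) = e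
  revert a b c d e
  decide

/-- the reflected noise field. -/
def rev (u : ℤ → unitInterval) : ℤ → unitInterval := fun i => u (-i)

lemma measurable_rev : Measurable rev := by
  apply measurable_pi_lambda
  intro i
  exact measurable_pi_apply (-i)

lemma addNoise_mir (δ : ℝ) (y : Config) (u : ℤ → unitInterval) :
    addNoise 0 δ y u = mir (addNoise δ 0 (mir y) (rev u)) := by
  funext i
  have h0 : ¬ ((u i : ℝ) < 0) := not_lt.2 (u i).2.1
  simp only [addNoise, mir, rev, neg_neg]
  cases y i <;> simp [h0]

lemma map_rev : uniformField.map rev = uniformField := by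
  classical
  unfold uniformField
  refine Measure.eq_infinitePi _ fun s t ht => ?_
  rw [Measure.map_apply measurable_rev (.pi s.countable_toSet fun _ _ => ht _)]
  have : rev ⁻¹' ((s : Set ℤ).pi t) =
      Set.pi ((s.map (Equiv.neg ℤ).toEmbedding : Finset ℤ) : Set ℤ) (fun i => t (-i)) := by
    ext u
    simp only [Set.mem_preimage, Set.mem_pi, Finset.mem_coe, Finset.mem_map,
      Equiv.coe_toEmbedding, Equiv.neg_apply, rev]
    constructor
    · rintro h i ⟨j, hj, rfl⟩
      rw [neg_neg]; exact h j hj
    · intro h i hi
      have := h (-i) ⟨i, hi, rfl⟩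
      rwa [neg_neg] at this
  rw [this, Measure.infinitePi_pi _ (fun i _ => ht _), Finset.prod_map]
  refine Finset.prod_congr rfl fun i _ => ?_
  simp

lemma step_mir (δ : ℝ) (μ : ProbabilityMeasure Config) :
    step 0 δ μ = (step δ 0 (μ.map measurable_mir.aemeasurable)).map
      measurable_mir.aemeasurable := by
  apply Subtype.ext
  show ((μ : Measure Config).prod uniformField).map
      (fun p => addNoise 0 δ (soldiers p.1) p.2) =
    (((((μ : Measure Config).map mir).prod uniformField).map
      (fun p => addNoise δ 0 (soldiers p.1) p.2))).map mir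
  rw [Measure.map_map measurable_mir (measurable_addNoise δ 0)]
  conv_rhs => rw [← map_rev]
  rw [Measure.map_prod_map _ _ measurable_mir measurable_rev,
    Measure.map_map (measurable_mir.comp (measurable_addNoise δ 0))
      (measurable_mir.prodMap measurable_rev)]
  congr 1
  funext p
  show addNoise 0 δ (soldiers p.1) p.2 = mir (addNoise δ 0 (soldiers (mir p.1)) (rev p.2))
  rw [addNoise_mir, soldiers_mir]

lemma map_mir_mir (μ : ProbabilityMeasure Config) :
    (μ.map measurable_mir.aemeasurable).map measurable_mir.aemeasurable = μ := by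
  apply Subtype.ext
  show (((μ : Measure Config).map mir)).map mir = (μ : Measure Config)
  rw [Measure.map_map measurable_mir measurable_mir]
  have : mir ∘ mir = id := by funext x; exact mir_mir x
  rw [this, Measure.map_id]

lemma step_mir_iter (δ : ℝ) (t : ℕ) (μ : ProbabilityMeasure Config) :
    (step 0 δ)^[t] μ = ((step δ 0)^[t] (μ.map measurable_mir.aemeasurable)).map
      measurable_mir.aemeasurable := by
  induction t with
  | zero => exact (map_mir_mir μ).symm
  | succ t ih =>
      rw [Function.iterate_succ_apply', ih, step_mir, map_mir_mir,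
        Function.iterate_succ_apply']

theorem decay_law_minus {δ : ℝ} (h0 : 0 < δ) (h1 : δ ≤ 1) :
    ∃ C θ : ℝ, 0 < θ ∧ θ < 1 ∧ ∀ (μ : ProbabilityMeasure Config) (i : ℤ) (t : ℕ),
      (((step 0 δ)^[t] μ : ProbabilityMeasure Config) : Measure Config) {x | x i = true} ≤
        ENNReal.ofReal (C * θ ^ t) := by
  obtain ⟨C, θ, hθ, hθ1, h⟩ := decay_law h0 h1
  refine ⟨C, θ, hθ, hθ1, fun μ i t => ?_⟩
  rw [step_mir_iter]
  have hm : MeasurableSet {x : Config | x i = true} := by
    have h : Measurable (fun x : Config => x i) := measurable_pi_apply i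
    exact h (measurableSet_singleton true)
  show (((((step δ 0)^[t] (μ.map measurable_mir.aemeasurable)) : ProbabilityMeasure Config) :
    Measure Config).map mir) {x | x i = true} ≤ _
  rw [Measure.map_apply measurable_mir hm]
  have : mir ⁻¹' {x | x i = true} = {x | x (-i) = false} := by
    ext x
    simp [mir]
  rw [this]
  exact h _ _ t

theorem ergodic_minus {δ : ℝ} (h0 : 0 < δ) (h1 : δ ≤ 1) : Ergodic (step 0 δ) := by
  obtain ⟨C, θ, hθ, hθ1, h⟩ := decay_law_minus h0 h1
  refine ⟨⟨Measure.dirac (fun _ => false), inferInstance⟩, fun μ => ?_⟩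
  refine tendsto_dirac false _ fun i => ?_
  exact tendsto_of_tendsto_of_tendsto_of_le_of_le tendsto_const_nhds (tendsto_bound C θ hθ hθ1)
    (fun t => zero_le) (fun t => h μ i t)

end Pool.Agent.Y992.Soldiers
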